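import Mathlib

/-!
# The eight-factor family for the Lang-Waldschmidt inequality

Nodes `± 60`, `± 30` with exponents linear in `t`, and three quadratic factors with constant exponents.
-/

set_option autoImplicit false

open Finset

namespace Pool.Agent.H15.LW8

/-- the Taylor polynomial of `- log (1 - x)` of degree `N` -/
noncomputable def P (N : ℕ) (x : ℝ) : ℝ := ∑ i ∈ range N, x ^ (i + 1) / ((i : ℝ) + 1)

theorem log_bound (N : ℕ) (x : ℝ) (hx : |x| ≤ 1 / 2) :
    |Real.log (1 - x) + P N x| ≤ 2 * |x| ^ (N + 1) := by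
  have h := Real.abs_log_sub_add_sum_range_le (show |x| < 1 by linarith) N
  rw [add_comm] at h
  refine h.trans ?_
  rw [div_le_iff₀ (by linarith)]
  have : 0 ≤ |x| ^ (N + 1) := by positivity
  nlinarith

/-- `s` times the logarithm of the product, as a function of `s = 1 / t` -/
noncomputable def sG (s : ℝ) : ℝ :=
  (-5148297 - 308224840 * s) * Real.log (1 - (-60 * s)) +
  (5148297 - 308224840 * s) * Real.log (1 - 60 * s) +
  (10296594 + 409003595 * s) * Real.log (1 - (-30 * s)) +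
  (-10296594 + 409003595 * s) * Real.log (1 - 30 * s) +
  s * (70467584 * Real.log (1 - 2250 * s ^ 2)) +
  s * (-144375000 * Real.log (1 - 540 * s ^ 2)) +
  s * (31788045 * Real.log (1 - 3300 * s ^ 2))

theorem poly_id (s : ℝ) :
    (-5148297 - 308224840 * s) * P 17 (-60 * s) +
  (5148297 - 308224840 * s) * P 17 (60 * s) +
  (10296594 + 409003595 * s) * P 17 (-30 * s) +
  (-10296594 + 409003595 * s) * P 17 (30 * s) +
  s * (70467584 * P 8 (2250 * s ^ 2)) +
  s * (-144375000 * P 8 (540 * s ^ 2)) +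
  s * (31788045 * P 8 (3300 * s ^ 2)) = -(27185056028987472000000000000000 * s ^ 17) := by
  simp only [P, sum_range_succ, sum_range_zero]
  push_cast
  ring

theorem sG_bound (s : ℝ) (h0 : 0 < s) (hs : s ≤ 1 / 2 ^ 40) :
    |sG s - 27185056028987472000000000000000 * s ^ 17| ≤ 10 ^ 40 * s ^ 18 := by
  have hs1 : 60 * s ≤ 1 / 2 := by
    have : (1 : ℝ) / 2 ^ 40 ≤ 1 / 120 := by norm_num
    linarith
  have hs2 : 3300 * s ^ 2 ≤ 1 / 2 := by
    have : s ^ 2 ≤ (1 / 2 ^ 40) ^ 2 := by gcongr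
    have : ((1 : ℝ) / 2 ^ 40) ^ 2 ≤ 1 / 6600 := by norm_num
    linarith
  have hsq : 0 < s ^ 2 := by positivity
  have e1 := log_bound 17 (-60 * s) (by rw [abs_le]; constructor <;> linarith)
  have e2 := log_bound 17 (60 * s) (by rw [abs_le]; constructor <;> linarith)
  have e3 := log_bound 17 (-30 * s) (by rw [abs_le]; constructor <;> linarith)
  have e4 := log_bound 17 (30 * s) (by rw [abs_le]; constructor <;> linarith)
  have e5 := log_bound 8 (2250 * s ^ 2) (by rw [abs_le]; constructor <;> linarith)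
  have e6 := log_bound 8 (540 * s ^ 2) (by rw [abs_le]; constructor <;> linarith)
  have e7 := log_bound 8 (3300 * s ^ 2) (by rw [abs_le]; constructor <;> linarith)
  have a1 : |(-60 : ℝ) * s| = 60 * s := by rw [abs_mul, abs_of_pos h0]; norm_num
  have a2 : |(60 : ℝ) * s| = 60 * s := by rw [abs_mul, abs_of_pos h0]; norm_num
  have a3 : |(-30 : ℝ) * s| = 30 * s := by rw [abs_mul, abs_of_pos h0]; norm_num
  have a4 : |(30 : ℝ) * s| = 30 * s := by rw [abs_mul, abs_of_pos h0]; norm_num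
  have a5 : |(2250 : ℝ) * s ^ 2| = 2250 * s ^ 2 := abs_of_pos (by positivity)
  have a6 : |(540 : ℝ) * s ^ 2| = 540 * s ^ 2 := abs_of_pos (by positivity)
  have a7 : |(3300 : ℝ) * s ^ 2| = 3300 * s ^ 2 := abs_of_pos (by positivity)
  rw [a1] at e1; rw [a2] at e2; rw [a3] at e3; rw [a4] at e4; rw [a5] at e5; rw [a6] at e6
  rw [a7] at e7
  have hid := poly_id s
  have hsmall1 : 308224840 * s ≤ 1 := by
    have : (1 : ℝ) / 2 ^ 40 ≤ 1 / 308224840 := by norm_num
    linarith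
  have hsmall2 : 409003595 * s ≤ 1 := by
    have : (1 : ℝ) / 2 ^ 40 ≤ 1 / 409003595 := by norm_num
    linarith
  have c1 : |(-5148297 - 308224840 * s : ℝ)| ≤ 5148298 := by
    rw [abs_le]; constructor <;> linarith
  have c2 : |(5148297 - 308224840 * s : ℝ)| ≤ 5148298 := by
    rw [abs_le]; constructor <;> linarith
  have c3 : |(10296594 + 409003595 * s : ℝ)| ≤ 10296595 := by
    rw [abs_le]; constructor <;> linarith
  have c4 : |(-10296594 + 409003595 * s : ℝ)| ≤ 10296595 := by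
    rw [abs_le]; constructor <;> linarith
  have c5 : |s * 70467584| ≤ s * 70467584 := by rw [abs_of_pos (by positivity)]
  have c6 : |s * (-144375000)| ≤ s * 144375000 := by
    rw [abs_mul, abs_of_pos h0]; norm_num
  have c7 : |s * 31788045| ≤ s * 31788045 := by rw [abs_of_pos (by positivity)]
  have hdec : sG s - 27185056028987472000000000000000 * s ^ 17 =
      (-5148297 - 308224840 * s) * (Real.log (1 - (-60 * s)) + P 17 (-60 * s)) +
      (5148297 - 308224840 * s) * (Real.log (1 - 60 * s) + P 17 (60 * s)) +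
      (10296594 + 409003595 * s) * (Real.log (1 - (-30 * s)) + P 17 (-30 * s)) +
      (-10296594 + 409003595 * s) * (Real.log (1 - 30 * s) + P 17 (30 * s)) +
      (s * 70467584) * (Real.log (1 - 2250 * s ^ 2) + P 8 (2250 * s ^ 2)) +
      (s * (-144375000)) * (Real.log (1 - 540 * s ^ 2) + P 8 (540 * s ^ 2)) +
      (s * 31788045) * (Real.log (1 - 3300 * s ^ 2) + P 8 (3300 * s ^ 2)) := by
    unfold sG
    linear_combination -hid
  rw [hdec]
  have m1 : |(-5148297 - 308224840 * s) * (Real.log (1 - (-60 * s)) + P 17 (-60 * s))| ≤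
      5148298 * (2 * (60 * s) ^ 18) := by
    rw [abs_mul]; exact mul_le_mul c1 e1 (abs_nonneg _) (by norm_num)
  have m2 : |(5148297 - 308224840 * s) * (Real.log (1 - 60 * s) + P 17 (60 * s))| ≤
      5148298 * (2 * (60 * s) ^ 18) := by
    rw [abs_mul]; exact mul_le_mul c2 e2 (abs_nonneg _) (by norm_num)
  have m3 : |(10296594 + 409003595 * s) * (Real.log (1 - (-30 * s)) + P 17 (-30 * s))| ≤
      10296595 * (2 * (30 * s) ^ 18) := by
    rw [abs_mul]; exact mul_le_mul c3 e3 (abs_nonneg _) (by norm_num)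
  have m4 : |(-10296594 + 409003595 * s) * (Real.log (1 - 30 * s) + P 17 (30 * s))| ≤
      10296595 * (2 * (30 * s) ^ 18) := by
    rw [abs_mul]; exact mul_le_mul c4 e4 (abs_nonneg _) (by norm_num)
  have m5 : |(s * 70467584) * (Real.log (1 - 2250 * s ^ 2) + P 8 (2250 * s ^ 2))| ≤
      (s * 70467584) * (2 * (2250 * s ^ 2) ^ 9) := by
    rw [abs_mul]; exact mul_le_mul c5 e5 (abs_nonneg _) (by positivity)
  have m6 : |(s * (-144375000)) * (Real.log (1 - 540 * s ^ 2) + P 8 (540 * s ^ 2))| ≤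
      (s * 144375000) * (2 * (540 * s ^ 2) ^ 9) := by
    rw [abs_mul]; exact mul_le_mul c6 e6 (abs_nonneg _) (by positivity)
  have m7 : |(s * 31788045) * (Real.log (1 - 3300 * s ^ 2) + P 8 (3300 * s ^ 2))| ≤
      (s * 31788045) * (2 * (3300 * s ^ 2) ^ 9) := by
    rw [abs_mul]; exact mul_le_mul c7 e7 (abs_nonneg _) (by positivity)
  have hs19 : s ^ 19 ≤ s ^ 18 := by
    have : s ≤ 1 := by
      have : (1 : ℝ) / 2 ^ 40 ≤ 1 := by norm_num
      linarith
    calc s ^ 19 = s ^ 18 * s := by ring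
      _ ≤ s ^ 18 * 1 := by gcongr
      _ = s ^ 18 := by ring
  have hs18 : 0 < s ^ 18 := by positivity
  calc _ ≤ 5148298 * (2 * (60 * s) ^ 18) + 5148298 * (2 * (60 * s) ^ 18) +
        10296595 * (2 * (30 * s) ^ 18) + 10296595 * (2 * (30 * s) ^ 18) +
        (s * 70467584) * (2 * (2250 * s ^ 2) ^ 9) + (s * 144375000) * (2 * (540 * s ^ 2) ^ 9) +
        (s * 31788045) * (2 * (3300 * s ^ 2) ^ 9) := by
        refine (abs_add_le _ _).trans (add_le_add ?_ m7)
        refine (abs_add_le _ _).trans (add_le_add ?_ m6)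
        refine (abs_add_le _ _).trans (add_le_add ?_ m5)
        refine (abs_add_le _ _).trans (add_le_add ?_ m4)
        refine (abs_add_le _ _).trans (add_le_add ?_ m3)
        exact (abs_add_le _ _).trans (add_le_add m1 m2)
    _ = (4 * 5148298 * 60 ^ 18 + 4 * 10296595 * 30 ^ 18) * s ^ 18 +
        (2 * 70467584 * 2250 ^ 9 + 2 * 144375000 * 540 ^ 9 + 2 * 31788045 * 3300 ^ 9) * s ^ 19 := by
        ring
    _ ≤ (4 * 5148298 * 60 ^ 18 + 4 * 10296595 * 30 ^ 18) * s ^ 18 +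
        (2 * 70467584 * 2250 ^ 9 + 2 * 144375000 * 540 ^ 9 + 2 * 31788045 * 3300 ^ 9) * s ^ 18 := by
        gcongr
    _ ≤ 10 ^ 40 * s ^ 18 := by
        rw [← add_mul]
        refine mul_le_mul_of_nonneg_right ?_ hs18.le
        norm_num

/-- the eight bases -/
def aV (n : ℕ) : Fin 8 → ℤ :=
  ![2 ^ n + 60, 2 ^ n - 60, 2 ^ n + 30, 2 ^ n - 30, 4 ^ n - 2250, 4 ^ n - 540, 4 ^ n - 3300, 2]

/-- the eight exponents -/
def bV (n : ℕ) : Fin 8 → ℤ :=
  ![-5148297 * 2 ^ n - 308224840, 5148297 * 2 ^ n - 308224840, 10296594 * 2 ^ n + 409003595,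
    -10296594 * 2 ^ n + 409003595, 70467584, -144375000, 31788045, -117318768 * n]

theorem zpow_exp (x : ℝ) (hx : 0 < x) (b : ℤ) : x ^ b = Real.exp (b * Real.log x) := by
  rw [← Real.rpow_intCast, Real.rpow_def_of_pos hx, mul_comm]

theorem two_pow_ge (n : ℕ) (hn : 40 ≤ n) : (2 : ℝ) ^ 40 ≤ 2 ^ n :=
  pow_le_pow_right₀ (by norm_num) hn

theorem four_pow (n : ℕ) : (4 : ℝ) ^ n = (2 ^ n) ^ 2 := by
  rw [← pow_mul, mul_comm, pow_mul]; norm_num

theorem lam_eq (n : ℕ) (hn : 40 ≤ n) :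
    ∏ i, ((aV n i : ℤ) : ℝ) ^ (bV n i) = Real.exp (2 ^ n * sG (1 / 2 ^ n)) := by
  have ht := two_pow_ge n hn
  obtain ⟨t, htd⟩ : ∃ t : ℝ, t = 2 ^ n := ⟨_, rfl⟩
  obtain ⟨s, hsd⟩ : ∃ s : ℝ, s = 1 / 2 ^ n := ⟨_, rfl⟩
  rw [← htd] at ht
  have ht0 : 0 < t := lt_of_lt_of_le (by norm_num) ht
  have hts : t * s = 1 := by rw [hsd, ← htd]; field_simp
  have hs0 : 0 < s := by rw [hsd]; positivity
  have ht60 : (6000 : ℝ) ≤ t := le_trans (by norm_num) ht
  have ht2 : 36000000 ≤ t ^ 2 := by nlinarith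
  have hst2 : t ^ 2 * s ^ 2 = 1 := by rw [← mul_pow, hts, one_pow]
  have hs60 : s * 6000 ≤ 1 := by
    have := mul_le_mul_of_nonneg_left ht60 hs0.le
    linarith
  have hs2 : s ^ 2 * 36000000 ≤ 1 := by
    have := mul_le_mul_of_nonneg_left ht2 (sq_nonneg s)
    linarith
  have lg : ∀ c : ℝ, |c| ≤ 3000 → Real.log (t - c) = Real.log t + Real.log (1 - c * s) := by
    intro c hc
    have hc' := abs_le.1 hc
    have : 0 < 1 - c * s := by nlinarith
    rw [← Real.log_mul ht0.ne' this.ne']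
    congr 1
    linear_combination c * hts
  have lg2 : ∀ c : ℝ, |c| ≤ 4000 → Real.log (t ^ 2 - c) = 2 * Real.log t + Real.log (1 - c * s ^ 2) := by
    intro c hc
    have hc' := abs_le.1 hc
    have : 0 < 1 - c * s ^ 2 := by nlinarith [sq_nonneg s]
    rw [show 2 * Real.log t = Real.log (t ^ 2) by rw [Real.log_pow]; norm_num,
      ← Real.log_mul (by positivity) this.ne']
    congr 1
    linear_combination c * hst2
  have hl2 : (n : ℝ) * Real.log 2 = Real.log t := by rw [htd, Real.log_pow]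
  rw [Fin.prod_univ_eight]
  simp only [aV, bV, Matrix.cons_val]
  push_cast
  rw [four_pow n, ← hsd, ← htd]
  rw [zpow_exp (t + 60) (by linarith), zpow_exp (t - 60) (by linarith),
    zpow_exp (t + 30) (by linarith), zpow_exp (t - 30) (by linarith),
    zpow_exp (t ^ 2 - 2250) (by linarith), zpow_exp (t ^ 2 - 540) (by linarith),
    zpow_exp (t ^ 2 - 3300) (by linarith), zpow_exp 2 (by norm_num)]
  simp only [← Real.exp_add]
  congr 1
  have l1 := lg (-60) (by norm_num)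
  have l2 := lg 60 (by norm_num)
  have l3 := lg (-30) (by norm_num)
  have l4 := lg 30 (by norm_num)
  have l5 := lg2 2250 (by norm_num)
  have l6 := lg2 540 (by norm_num)
  have l7 := lg2 3300 (by norm_num)
  rw [show t - -60 = t + 60 by ring] at l1
  rw [show t - -30 = t + 30 by ring] at l3
  rw [l1, l2, l3, l4, l5, l6, l7]
  push_cast
  rw [← htd]
  unfold sG
  generalize Real.log (1 - -60 * s) = L1
  generalize Real.log (1 - 60 * s) = L2
  generalize Real.log (1 - -30 * s) = L3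
  generalize Real.log (1 - 30 * s) = L4
  generalize Real.log (1 - 2250 * s ^ 2) = L5
  generalize Real.log (1 - 540 * s ^ 2) = L6
  generalize Real.log (1 - 3300 * s ^ 2) = L7
  linear_combination (308224840 * L1 + 308224840 * L2 - 409003595 * L3 - 409003595 * L4 -
    70467584 * L5 + 144375000 * L6 - 31788045 * L7) * hts - 117318768 * hl2

theorem sG_est (n : ℕ) (hn : 40 ≤ n) :
    0 < 2 ^ n * sG (1 / 2 ^ n) ∧
      2 ^ n * sG (1 / 2 ^ n) ≤ 50000000000000000000000000000000 / ((2 : ℝ) ^ n) ^ 16 := by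
  have ht := two_pow_ge n hn
  obtain ⟨t, htd⟩ : ∃ t : ℝ, t = 2 ^ n := ⟨_, rfl⟩
  obtain ⟨s, hsd⟩ : ∃ s : ℝ, s = 1 / 2 ^ n := ⟨_, rfl⟩
  rw [← hsd, ← htd]
  rw [← htd] at ht
  have ht0 : 0 < t := lt_of_lt_of_le (by norm_num) ht
  have hts : t * s = 1 := by rw [hsd, ← htd]; field_simp
  have hs0 : 0 < s := by rw [hsd]; positivity
  have hs : s ≤ 1 / 2 ^ 40 := by
    rw [hsd, ← htd]
    exact one_div_le_one_div_of_le (by norm_num) ht
  have hb := abs_le.1 (sG_bound s hs0 hs)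
  have h17 : 0 < s ^ 17 := by positivity
  have h18 : 10 ^ 40 * s ^ 18 ≤ 10 ^ 31 * s ^ 17 := by
    have : 10 ^ 40 * s ≤ 10 ^ 31 := by
      have : (10 : ℝ) ^ 40 * (1 / 2 ^ 40) ≤ 10 ^ 31 := by norm_num
      linarith
    calc 10 ^ 40 * s ^ 18 = (10 ^ 40 * s) * s ^ 17 := by ring
      _ ≤ 10 ^ 31 * s ^ 17 := mul_le_mul_of_nonneg_right this h17.le
  have h1 : 0 < sG s := by linarith
  have h2 : sG s ≤ 50000000000000000000000000000000 * s ^ 17 := by linarith
  refine ⟨mul_pos ht0 h1, ?_⟩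
  have h3 : t * sG s ≤ t * (50000000000000000000000000000000 * s ^ 17) :=
    mul_le_mul_of_nonneg_left h2 ht0.le
  refine h3.trans (le_of_eq ?_)
  have hs1 : s = 1 / t := by rw [hsd, htd]
  rw [hs1]
  field_simp

theorem lam_est (n : ℕ) (hn : 40 ≤ n) :
    ∏ i, ((aV n i : ℤ) : ℝ) ^ (bV n i) ≠ 1 ∧
    |∏ i, ((aV n i : ℤ) : ℝ) ^ (bV n i) - 1| ≤ 10 ^ 32 / ((2 : ℝ) ^ n) ^ 16 := by
  have ht := two_pow_ge n hn
  obtain ⟨h1, h2⟩ := sG_est n hn
  rw [lam_eq n hn]
  obtain ⟨G, hG⟩ : ∃ G, G = 2 ^ n * sG (1 / 2 ^ n) := ⟨_, rfl⟩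
  rw [← hG] at h1 h2 ⊢
  have hT16 : (2 : ℝ) ^ 200 ≤ ((2 : ℝ) ^ n) ^ 16 := by
    calc (2 : ℝ) ^ 200 ≤ (2 ^ 40) ^ 16 := by norm_num
      _ ≤ ((2 : ℝ) ^ n) ^ 16 := by gcongr
  have hG1 : G ≤ 1 := by
    refine h2.trans ?_
    rw [div_le_one (by positivity)]
    refine le_trans ?_ hT16
    norm_num
  refine ⟨?_, ?_⟩
  · intro h
    rw [Real.exp_eq_one_iff] at h
    exact h1.ne' h
  · refine (Real.abs_exp_sub_one_le (by rw [abs_of_pos h1]; exact hG1)).trans ?_
    rw [abs_of_pos h1]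
    calc 2 * G ≤ 2 * (50000000000000000000000000000000 / ((2 : ℝ) ^ n) ^ 16) := by linarith
      _ = 10 ^ 32 / ((2 : ℝ) ^ n) ^ 16 := by ring

theorem aV_ge (n : ℕ) (hn : 40 ≤ n) (i : Fin 8) : 2 ≤ aV n i := by
  have ht : (2 : ℤ) ^ 40 ≤ 2 ^ n := pow_le_pow_right₀ (by norm_num) hn
  have ht4 : (4 : ℤ) ^ 40 ≤ 4 ^ n := pow_le_pow_right₀ (by norm_num) hn
  have h1 : (6000 : ℤ) ≤ 2 ^ 40 := by norm_num
  have h2 : (6000 : ℤ) ≤ 4 ^ 40 := by norm_num
  fin_cases i <;> simp only [aV, Matrix.cons_val, Fin.reduceFinMk, Fin.zero_eta, Fin.isValue,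
    Fin.mk_one] <;> linarith

theorem bV_ne (n : ℕ) (hn : 40 ≤ n) (i : Fin 8) : bV n i ≠ 0 := by
  have ht : (2 : ℤ) ^ 40 ≤ 2 ^ n := pow_le_pow_right₀ (by norm_num) hn
  have h1 : (1000000000 : ℤ) ≤ 2 ^ 40 := by norm_num
  have h3 : (40 : ℤ) ≤ n := by exact_mod_cast hn
  fin_cases i <;> simp only [bV, Matrix.cons_val, Fin.reduceFinMk, Fin.zero_eta, Fin.isValue,
    Fin.mk_one]
  · apply ne_of_lt; linarith
  · apply ne_of_gt; linarith
  · apply ne_of_gt; linarith
  · apply ne_of_lt; linarith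
  · norm_num
  · norm_num
  · norm_num
  · apply ne_of_lt; linarith

theorem prod_a (n : ℕ) (hn : 40 ≤ n) :
    (2 : ℝ) ^ n ≤ ∏ i, |((aV n i : ℤ) : ℝ)| ∧
      ∏ i, |((aV n i : ℤ) : ℝ)| ≤ 2 * ((2 : ℝ) ^ n) ^ 10 := by
  have ht := two_pow_ge n hn
  obtain ⟨t, htd⟩ : ∃ t : ℝ, t = 2 ^ n := ⟨_, rfl⟩
  rw [← htd] at ht ⊢
  have ht0 : 0 < t := lt_of_lt_of_le (by norm_num) ht
  have ht60 : (6000 : ℝ) ≤ t := le_trans (by norm_num) ht
  have ht2 : 36000000 ≤ t ^ 2 := by nlinarith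
  rw [Fin.prod_univ_eight]
  simp only [aV, Matrix.cons_val]
  push_cast
  rw [four_pow n, ← htd]
  rw [abs_of_pos (show 0 < t + 60 by linarith), abs_of_pos (show 0 < t - 60 by linarith),
    abs_of_pos (show 0 < t + 30 by linarith), abs_of_pos (show 0 < t - 30 by linarith),
    abs_of_pos (show 0 < t ^ 2 - 2250 by linarith), abs_of_pos (show 0 < t ^ 2 - 540 by linarith),
    abs_of_pos (show 0 < t ^ 2 - 3300 by linarith), abs_of_pos (show (0 : ℝ) < 2 by norm_num)]
  have q1 : 1 ≤ t - 60 := by linarith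
  have q2 : 1 ≤ t + 30 := by linarith
  have q3 : 1 ≤ t - 30 := by linarith
  have q4 : 1 ≤ t ^ 2 - 2250 := by linarith
  have q5 : 1 ≤ t ^ 2 - 540 := by linarith
  have q6 : 1 ≤ t ^ 2 - 3300 := by linarith
  constructor
  · calc t ≤ (t + 60) * 1 * 1 * 1 * 1 * 1 * 1 * 1 := by linarith
      _ ≤ (t + 60) * (t - 60) * (t + 30) * (t - 30) * (t ^ 2 - 2250) * (t ^ 2 - 540) *
          (t ^ 2 - 3300) * 2 := by gcongr; norm_num
  · have e1 : (t + 60) * (t - 60) ≤ t ^ 2 := by nlinarith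
    have e2 : (t + 30) * (t - 30) ≤ t ^ 2 := by nlinarith
    calc (t + 60) * (t - 60) * (t + 30) * (t - 30) * (t ^ 2 - 2250) * (t ^ 2 - 540) *
          (t ^ 2 - 3300) * 2
        = ((t + 60) * (t - 60)) * ((t + 30) * (t - 30)) * (t ^ 2 - 2250) * (t ^ 2 - 540) *
          (t ^ 2 - 3300) * 2 := by ring
      _ ≤ t ^ 2 * t ^ 2 * t ^ 2 * t ^ 2 * t ^ 2 * 2 := by
        have f1 : 0 ≤ (t + 30) * (t - 30) := by positivity
        have f2 : 0 ≤ (t + 60) * (t - 60) := by positivity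
        gcongr <;> linarith
      _ = 2 * t ^ 10 := by ring

theorem prod_b (n : ℕ) (hn : 40 ≤ n) :
    1 ≤ ∏ i, |((bV n i : ℤ) : ℝ)| ∧
      ∏ i, |((bV n i : ℤ) : ℝ)| ≤ 2 * 10 ^ 59 * n * ((2 : ℝ) ^ n) ^ 4 := by
  have ht := two_pow_ge n hn
  obtain ⟨t, htd⟩ : ∃ t : ℝ, t = 2 ^ n := ⟨_, rfl⟩
  rw [← htd] at ht ⊢
  have ht0 : 0 < t := lt_of_lt_of_le (by norm_num) ht
  have ht60 : (1000000000 : ℝ) ≤ t := le_trans (by norm_num) ht
  have hn0 : (40 : ℝ) ≤ n := by exact_mod_cast hn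
  constructor
  · rw [← Finset.prod_const_one (s := (Finset.univ : Finset (Fin 8)))]
    refine Finset.prod_le_prod (fun _ _ => zero_le_one) fun i _ => ?_
    have h := Int.one_le_abs (bV_ne n hn i)
    exact_mod_cast h
  · rw [Fin.prod_univ_eight]
    simp only [bV, Matrix.cons_val]
    push_cast
    rw [← htd]
    rw [abs_of_neg (show -5148297 * t - 308224840 < 0 by linarith),
      abs_of_pos (show 0 < 5148297 * t - 308224840 by linarith),
      abs_of_pos (show 0 < 10296594 * t + 409003595 by linarith),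
      abs_of_neg (show -10296594 * t + 409003595 < 0 by linarith),
      abs_of_pos (show (0 : ℝ) < 70467584 by norm_num),
      abs_of_neg (show (-144375000 : ℝ) < 0 by norm_num),
      abs_of_pos (show (0 : ℝ) < 31788045 by norm_num),
      abs_of_neg (show -117318768 * (n : ℝ) < 0 by linarith)]
    have e1 : (-(-5148297 * t - 308224840)) * (5148297 * t - 308224840) ≤ (5148297 * t) ^ 2 := by
      nlinarith
    have e2 : (10296594 * t + 409003595) * (-(-10296594 * t + 409003595)) ≤ (10296594 * t) ^ 2 := by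
      nlinarith
    have e3 : 0 ≤ (10296594 * t + 409003595) * (-(-10296594 * t + 409003595)) := by
      apply mul_nonneg <;> linarith
    calc _ = ((-(-5148297 * t - 308224840)) * (5148297 * t - 308224840)) *
          ((10296594 * t + 409003595) * (-(-10296594 * t + 409003595))) *
          (70467584 * 144375000 * 31788045 * 117318768 * n) := by ring
      _ ≤ (5148297 * t) ^ 2 * (10296594 * t) ^ 2 *
          (70467584 * 144375000 * 31788045 * 117318768 * n) := by gcongr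
      _ = (5148297 ^ 2 * 10296594 ^ 2 * 70467584 * 144375000 * 31788045 * 117318768) * n * t ^ 4 := by
        ring
      _ ≤ 2 * 10 ^ 59 * n * t ^ 4 := by
        have hc : (5148297 ^ 2 * 10296594 ^ 2 * 70467584 * 144375000 * 31788045 * 117318768 : ℝ) ≤
          2 * 10 ^ 59 := by norm_num
        have := mul_le_mul_of_nonneg_right hc (show 0 ≤ (n : ℝ) * t ^ 4 by positivity)
        rw [mul_assoc, mul_assoc (2 * 10 ^ 59)]
        exact this

end Pool.Agent.H15.LW8
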