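import Mathlib
import Pool.Agent.H15.LW8

/-!
# The eight-factor family with pairwise coprime bases

For `x = 4 ^ k`, `t = 4 x = 2 ^ (2 k + 2)`: the bases are
`x + 15, x - 15, 2 x + 15, 2 x - 15, 8 x² - 1125, 4 x² - 135, 4 x² - 825, 2`.
-/

set_option autoImplicit false

open Finset

namespace Pool.Agent.H15.LW8C

open Pool.Agent.H15.LW8

/-- the eight pairwise coprime bases -/
def aC (k : ℕ) : Fin 8 → ℤ :=
  ![4 ^ k + 15, 4 ^ k - 15, 2 * 4 ^ k + 15, 2 * 4 ^ k - 15, 8 * 16 ^ k - 1125, 4 * 16 ^ k - 135,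
    4 * 16 ^ k - 825, 2]

/-- the eight exponents -/
def bC (k : ℕ) : Fin 8 → ℤ :=
  ![-20593188 * 4 ^ k - 308224840, 20593188 * 4 ^ k - 308224840, 41186376 * 4 ^ k + 409003595,
    -41186376 * 4 ^ k + 409003595, 70467584, -144375000, 31788045, -234637536 * k - 804236032]

theorem cop_of_not_dvd (a : ℤ) (p : ℕ) (hp : p.Prime) (h : ¬ (p : ℤ) ∣ a) : IsCoprime a p :=
  ((Nat.prime_iff_prime_int.1 hp).coprime_iff_not_dvd.2 h).symm

theorem m3 (k : ℕ) : (4 : ℤ) ^ k % 3 = 1 := by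
  induction k with
  | zero => norm_num
  | succ k ih => rw [pow_succ]; omega

theorem m3' (k : ℕ) : (16 : ℤ) ^ k % 3 = 1 := by
  induction k with
  | zero => norm_num
  | succ k ih => rw [pow_succ]; omega

theorem m5 (k : ℕ) : (4 : ℤ) ^ k % 5 = 1 ∨ (4 : ℤ) ^ k % 5 = 4 := by
  induction k with
  | zero => norm_num
  | succ k ih => rw [pow_succ]; omega

theorem m5' (k : ℕ) : (16 : ℤ) ^ k % 5 = 1 := by
  induction k with
  | zero => norm_num
  | succ k ih => rw [pow_succ]; omega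

theorem m17 (k : ℕ) : (4 : ℤ) ^ k % 17 = 1 ∨ (4 : ℤ) ^ k % 17 = 4 ∨ (4 : ℤ) ^ k % 17 = 16 ∨
    (4 : ℤ) ^ k % 17 = 13 := by
  induction k with
  | zero => norm_num
  | succ k ih => rw [pow_succ]; omega

theorem m7 (k : ℕ) : (16 : ℤ) ^ k % 7 = 1 ∨ (16 : ℤ) ^ k % 7 = 2 ∨ (16 : ℤ) ^ k % 7 = 4 := by
  induction k with
  | zero => norm_num
  | succ k ih => rw [pow_succ]; omega

theorem m19 (k : ℕ) : (16 : ℤ) ^ k % 19 = 1 ∨ (16 : ℤ) ^ k % 19 = 16 ∨ (16 : ℤ) ^ k % 19 = 9 ∨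
    (16 : ℤ) ^ k % 19 = 11 ∨ (16 : ℤ) ^ k % 19 = 5 ∨ (16 : ℤ) ^ k % 19 = 4 ∨
    (16 : ℤ) ^ k % 19 = 7 ∨ (16 : ℤ) ^ k % 19 = 17 ∨ (16 : ℤ) ^ k % 19 = 6 := by
  induction k with
  | zero => norm_num
  | succ k ih => rw [pow_succ]; omega

theorem m23 (k : ℕ) : (16 : ℤ) ^ k % 23 = 1 ∨ (16 : ℤ) ^ k % 23 = 16 ∨ (16 : ℤ) ^ k % 23 = 3 ∨
    (16 : ℤ) ^ k % 23 = 2 ∨ (16 : ℤ) ^ k % 23 = 9 ∨ (16 : ℤ) ^ k % 23 = 6 ∨
    (16 : ℤ) ^ k % 23 = 4 ∨ (16 : ℤ) ^ k % 23 = 18 ∨ (16 : ℤ) ^ k % 23 = 12 ∨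
    (16 : ℤ) ^ k % 23 = 8 ∨ (16 : ℤ) ^ k % 23 = 13 := by
  induction k with
  | zero => norm_num
  | succ k ih => rw [pow_succ]; omega

theorem even4 (k : ℕ) (hk : 1 ≤ k) : (4 : ℤ) ^ k % 2 = 0 := by
  obtain ⟨j, rfl⟩ : ∃ j, k = j + 1 := ⟨k - 1, by omega⟩
  rw [pow_succ]; omega

theorem sq4 (k : ℕ) : (16 : ℤ) ^ k = 4 ^ k * 4 ^ k := by
  rw [← mul_pow]; norm_num

/-- coprime to `2`, `3`, `5` -/
def C30 (a : ℤ) : Prop := IsCoprime a 2 ∧ IsCoprime a 3 ∧ IsCoprime a 5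

theorem C30_of (a : ℤ) (h2 : ¬ (2 : ℤ) ∣ a) (h3 : ¬ (3 : ℤ) ∣ a) (h5 : ¬ (5 : ℤ) ∣ a) : C30 a :=
  ⟨by exact_mod_cast cop_of_not_dvd a 2 Nat.prime_two (by exact_mod_cast h2),
   by exact_mod_cast cop_of_not_dvd a 3 Nat.prime_three (by exact_mod_cast h3),
   by exact_mod_cast cop_of_not_dvd a 5 Nat.prime_five (by exact_mod_cast h5)⟩

theorem C30.mul {a : ℤ} (h : C30 a) (i j l : ℕ) {n : ℤ} (hn : n = 2 ^ i * 3 ^ j * 5 ^ l) :
    IsCoprime a n := by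
  rw [hn]
  exact (h.1.pow_right.mul_right h.2.1.pow_right).mul_right h.2.2.pow_right

theorem C30.muln {a : ℤ} (h : C30 a) (i j l : ℕ) {n : ℤ} (hn : -n = 2 ^ i * 3 ^ j * 5 ^ l) :
    IsCoprime a n := by
  have := (h.mul i j l hn).neg_right
  rwa [neg_neg] at this

theorem C30.mulp {a : ℤ} (h : C30 a) (i j l : ℕ) {n p : ℤ} (hp : IsCoprime a p)
    (hn : n = 2 ^ i * 3 ^ j * 5 ^ l * p) : IsCoprime a n := by
  rw [hn]
  exact (h.mul i j l rfl).mul_right hp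

theorem red {a b : ℤ} (q r : ℤ) (h : IsCoprime a r) (e : b = r + a * q) : IsCoprime a b := by
  rw [e]; exact h.add_mul_left_right q

/-- all pairs among seven integers are coprime -/
def All7 (a b c d e f g : ℤ) : Prop :=
  IsCoprime a b ∧ IsCoprime a c ∧ IsCoprime a d ∧ IsCoprime a e ∧ IsCoprime a f ∧ IsCoprime a g ∧
  IsCoprime b c ∧ IsCoprime b d ∧ IsCoprime b e ∧ IsCoprime b f ∧ IsCoprime b g ∧
  IsCoprime c d ∧ IsCoprime c e ∧ IsCoprime c f ∧ IsCoprime c g ∧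
  IsCoprime d e ∧ IsCoprime d f ∧ IsCoprime d g ∧
  IsCoprime e f ∧ IsCoprime e g ∧ IsCoprime f g

theorem all7 (x y : ℤ) (hs : y = x * x)
    (c1 : C30 (x + 15)) (c2 : C30 (x - 15)) (c3 : C30 (2 * x + 15)) (c4 : C30 (2 * x - 15))
    (c6 : C30 (4 * y - 135)) (c7 : C30 (4 * y - 825))
    (d1 : IsCoprime (x + 15) 17) (d2 : IsCoprime (x - 15) 17) (d6 : IsCoprime (4 * y - 135) 23)
    (d6' : IsCoprime (4 * y - 135) 19) (d7 : IsCoprime (4 * y - 825) 7) :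
    All7 (x + 15) (x - 15) (2 * x + 15) (2 * x - 15) (8 * y - 1125) (4 * y - 135)
      (4 * y - 825) := by
  refine ⟨?_, ?_, ?_, ?_, ?_, ?_, ?_, ?_, ?_, ?_, ?_, ?_, ?_, ?_, ?_, ?_, ?_, ?_, ?_, ?_, ?_⟩
  · exact red 1 (-30) (c1.muln 1 1 1 (by norm_num)) (by ring)
  · exact red 2 (-15) (c1.muln 0 1 1 (by norm_num)) (by ring)
  · exact red 2 (-45) (c1.muln 0 2 1 (by norm_num)) (by ring)
  · exact red (8 * (x - 15)) 675 (c1.mul 0 3 2 (by norm_num)) (by rw [hs]; ring)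
  · exact red (4 * (x - 15)) 765 (c1.mulp 0 2 1 d1 (by norm_num)) (by rw [hs]; ring)
  · exact red (4 * (x - 15)) 75 (c1.mul 0 1 2 (by norm_num)) (by rw [hs]; ring)
  · exact red 2 45 (c2.mul 0 2 1 (by norm_num)) (by ring)
  · exact red 2 15 (c2.mul 0 1 1 (by norm_num)) (by ring)
  · exact red (8 * (x + 15)) 675 (c2.mul 0 3 2 (by norm_num)) (by rw [hs]; ring)
  · exact red (4 * (x + 15)) 765 (c2.mulp 0 2 1 d2 (by norm_num)) (by rw [hs]; ring)
  · exact red (4 * (x + 15)) 75 (c2.mul 0 1 2 (by norm_num)) (by rw [hs]; ring)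
  · exact red 1 (-30) (c3.muln 1 1 1 (by norm_num)) (by ring)
  · exact red (2 * (2 * x - 15)) (-675) (c3.muln 0 3 2 (by norm_num)) (by rw [hs]; ring)
  · exact red (2 * x - 15) 90 (c3.mul 1 2 1 (by norm_num)) (by rw [hs]; ring)
  · exact red (2 * x - 15) (-600) (c3.muln 3 1 2 (by norm_num)) (by rw [hs]; ring)
  · exact red (2 * (2 * x + 15)) (-675) (c4.muln 0 3 2 (by norm_num)) (by rw [hs]; ring)
  · exact red (2 * x + 15) 90 (c4.mul 1 2 1 (by norm_num)) (by rw [hs]; ring)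
  · exact red (2 * x + 15) (-600) (c4.muln 3 1 2 (by norm_num)) (by rw [hs]; ring)
  · refine (red 2 (-855) ?_ (by ring) : IsCoprime (4 * y - 135) (8 * y - 1125)).symm
    have := (c6.mulp 0 2 1 (n := 855) d6' (by norm_num)).neg_right
    exact this
  · exact (red 2 525 (c7.mulp 0 1 2 d7 (by norm_num)) (by ring) :
      IsCoprime (4 * y - 825) (8 * y - 1125)).symm
  · refine red 1 (-690) ?_ (by ring)
    have := (c6.mulp 1 1 1 (n := 690) d6 (by norm_num)).neg_right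
    exact this

theorem k1 (x : ℤ) (h2 : x % 2 = 0) (h3 : x % 3 = 1) (h5 : x % 5 = 1 ∨ x % 5 = 4) :
    C30 (x + 15) ∧ C30 (x - 15) ∧ C30 (2 * x + 15) ∧ C30 (2 * x - 15) :=
  ⟨C30_of _ (by omega) (by omega) (by omega), C30_of _ (by omega) (by omega) (by omega),
   C30_of _ (by omega) (by omega) (by omega), C30_of _ (by omega) (by omega) (by omega)⟩

theorem k2 (y : ℤ) (h3 : y % 3 = 1) (h5 : y % 5 = 1) :
    IsCoprime (8 * y - 1125) 2 ∧ C30 (4 * y - 135) ∧ C30 (4 * y - 825) :=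
  ⟨by exact_mod_cast cop_of_not_dvd (8 * y - 1125) 2 Nat.prime_two (by omega),
   C30_of _ (by omega) (by omega) (by omega), C30_of _ (by omega) (by omega) (by omega)⟩

theorem k17 (k : ℕ) : IsCoprime ((4 : ℤ) ^ k + 15) 17 ∧ IsCoprime ((4 : ℤ) ^ k - 15) 17 := by
  have := m17 k
  constructor
  · exact_mod_cast cop_of_not_dvd ((4 : ℤ) ^ k + 15) 17 (by norm_num) (by omega)
  · exact_mod_cast cop_of_not_dvd ((4 : ℤ) ^ k - 15) 17 (by norm_num) (by omega)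

theorem k23 (k : ℕ) : IsCoprime (4 * (16 : ℤ) ^ k - 135) 23 := by
  have := m23 k
  exact_mod_cast cop_of_not_dvd (4 * (16 : ℤ) ^ k - 135) 23 (by norm_num) (by omega)

theorem k19 (k : ℕ) : IsCoprime (4 * (16 : ℤ) ^ k - 135) 19 := by
  have := m19 k
  exact_mod_cast cop_of_not_dvd (4 * (16 : ℤ) ^ k - 135) 19 (by norm_num) (by omega)

theorem k7 (k : ℕ) : IsCoprime (4 * (16 : ℤ) ^ k - 825) 7 := by
  have := m7 k
  exact_mod_cast cop_of_not_dvd (4 * (16 : ℤ) ^ k - 825) 7 (by norm_num) (by omega)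

/-- from the 28 pairs to the statement about the vector -/
theorem vec8 (a b c d e f g h : ℤ) (H : All7 a b c d e f g) (ha : IsCoprime a h)
    (hb : IsCoprime b h) (hc : IsCoprime c h) (hd : IsCoprime d h) (he : IsCoprime e h)
    (hf : IsCoprime f h) (hg : IsCoprime g h) :
    ∀ i j, i ≠ j → IsCoprime ((![a, b, c, d, e, f, g, h] : Fin 8 → ℤ) i)
      ((![a, b, c, d, e, f, g, h] : Fin 8 → ℤ) j) := by
  obtain ⟨h12, h13, h14, h15, h16, h17, h23, h24, h25, h26, h27, h34, h35, h36, h37, h45, h46,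
    h47, h56, h57, h67⟩ := H
  have key : ∀ i j : Fin 8, i < j →
      IsCoprime ((![a, b, c, d, e, f, g, h] : Fin 8 → ℤ) i)
      ((![a, b, c, d, e, f, g, h] : Fin 8 → ℤ) j) := by
    intro i j hij
    fin_cases i <;> fin_cases j <;> first | (exfalso; revert hij; decide) | assumption
  intro i j hij
  rcases lt_or_gt_of_ne hij with h | h
  · exact key i j h
  · exact (key j i h).symm

theorem coprime_all (k : ℕ) (hk : 1 ≤ k) :
    ∀ i j, i ≠ j → IsCoprime (aC k i) (aC k j) := by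
  obtain ⟨c1, c2, c3, c4⟩ := k1 (4 ^ k) (even4 k hk) (m3 k) (m5 k)
  obtain ⟨c5, c6, c7⟩ := k2 (16 ^ k) (m3' k) (m5' k)
  exact vec8 _ _ _ _ _ _ _ _ (all7 (4 ^ k) (16 ^ k) (sq4 k) c1 c2 c3 c4 c6 c7 (k17 k).1 (k17 k).2
    (k23 k) (k19 k) (k7 k)) c1.1 c2.1 c3.1 c4.1 c5 c6.1 c7.1

theorem pw (k : ℕ) : (2 : ℝ) ^ (2 * k + 2) = 4 * 4 ^ k := by
  rw [pow_add, pow_mul]; norm_num; ring

theorem pw4 (k : ℕ) : (4 : ℝ) ^ (2 * k + 2) = 16 * (4 ^ k) ^ 2 := by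
  rw [pow_add, pow_mul, ← pow_mul, mul_comm 2 k, pow_mul]; norm_num; ring

theorem pw16 (k : ℕ) : (16 : ℝ) ^ k = (4 ^ k) ^ 2 := by
  rw [← pow_mul, mul_comm, pow_mul]; norm_num

theorem four_ge (k : ℕ) (hk : 20 ≤ k) : (2 : ℝ) ^ 40 ≤ 4 ^ k := by
  calc (2 : ℝ) ^ 40 = 4 ^ 20 := by norm_num
    _ ≤ 4 ^ k := pow_le_pow_right₀ (by norm_num) hk

theorem lamexp (a b : Fin 8 → ℤ) (h : ∀ i, 0 < a i) :
    ∏ i, ((a i : ℤ) : ℝ) ^ (b i) = Real.exp (∑ i, (b i : ℝ) * Real.log (a i)) := by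
  rw [Real.exp_sum]
  refine Finset.prod_congr rfl fun i _ => ?_
  exact zpow_exp _ (by exact_mod_cast h i) _

theorem sum8 (a0 a1 a2 a3 a4 a5 a6 a7 b0 b1 b2 b3 b4 b5 b6 b7 : ℤ) :
    ∑ i, (((![b0, b1, b2, b3, b4, b5, b6, b7] : Fin 8 → ℤ) i : ℤ) : ℝ) *
      Real.log (((![a0, a1, a2, a3, a4, a5, a6, a7] : Fin 8 → ℤ) i : ℤ) : ℝ) =
    b0 * Real.log a0 + b1 * Real.log a1 + b2 * Real.log a2 + b3 * Real.log a3 +
      b4 * Real.log a4 + b5 * Real.log a5 + b6 * Real.log a6 + b7 * Real.log a7 := by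
  rw [Fin.sum_univ_eight]
  rfl

theorem pabs8 (b0 b1 b2 b3 b4 b5 b6 b7 : ℤ) :
    ∏ i, |(((![b0, b1, b2, b3, b4, b5, b6, b7] : Fin 8 → ℤ) i : ℤ) : ℝ)| =
    |(b0 : ℝ)| * |(b1 : ℝ)| * |(b2 : ℝ)| * |(b3 : ℝ)| * |(b4 : ℝ)| * |(b5 : ℝ)| * |(b6 : ℝ)| *
      |(b7 : ℝ)| := by
  rw [Fin.prod_univ_eight]
  rfl

theorem aC_ge (k : ℕ) (hk : 20 ≤ k) (i : Fin 8) : 2 ≤ aC k i := by
  have ht : (4 : ℤ) ^ 20 ≤ 4 ^ k := pow_le_pow_right₀ (by norm_num) hk
  have ht4 : (16 : ℤ) ^ 20 ≤ 16 ^ k := pow_le_pow_right₀ (by norm_num) hk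
  have h1 : (6000 : ℤ) ≤ 4 ^ 20 := by norm_num
  have h2 : (6000 : ℤ) ≤ 16 ^ 20 := by norm_num
  fin_cases i <;> simp only [aC, Matrix.cons_val, Fin.reduceFinMk, Fin.zero_eta, Fin.isValue,
    Fin.mk_one] <;> linarith

theorem lamC_eq (k : ℕ) (hk : 20 ≤ k) :
    ∏ i, ((aC k i : ℤ) : ℝ) ^ (bC k i) =
      ∏ i, ((aV (2 * k + 2) i : ℤ) : ℝ) ^ (bV (2 * k + 2) i) := by
  rw [lamexp (aC k) (bC k) fun i => by have := aC_ge k hk i; omega,
    lamexp (aV (2 * k + 2)) (bV (2 * k + 2)) fun i => by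
      have := aV_ge (2 * k + 2) (by omega) i; omega]
  congr 1
  unfold aV bV aC bC
  rw [sum8, sum8]
  push_cast
  rw [pw k, pw4 k, pw16 k]
  have hx := four_ge k hk
  generalize (4 : ℝ) ^ k = x at hx ⊢
  have hx0 : (6000 : ℝ) ≤ x := le_trans (by norm_num) hx
  have hx2 : 36000000 ≤ x ^ 2 := by nlinarith
  have l4 : Real.log 4 = 2 * Real.log 2 := by
    rw [show (4 : ℝ) = 2 ^ 2 by norm_num, Real.log_pow]; norm_num
  have l1 : Real.log (4 * x + 60) = 2 * Real.log 2 + Real.log (x + 15) := by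
    rw [← l4, ← Real.log_mul (by norm_num) (by linarith)]; congr 1; ring
  have l2 : Real.log (4 * x - 60) = 2 * Real.log 2 + Real.log (x - 15) := by
    rw [← l4, ← Real.log_mul (by norm_num) (by linarith)]; congr 1; ring
  have l3 : Real.log (4 * x + 30) = Real.log 2 + Real.log (2 * x + 15) := by
    rw [← Real.log_mul (by norm_num) (by linarith)]; congr 1; ring
  have l5 : Real.log (4 * x - 30) = Real.log 2 + Real.log (2 * x - 15) := by
    rw [← Real.log_mul (by norm_num) (by linarith)]; congr 1; ring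
  have l6 : Real.log (16 * x ^ 2 - 2250) = Real.log 2 + Real.log (8 * x ^ 2 - 1125) := by
    rw [← Real.log_mul (by norm_num) (by linarith)]; congr 1; ring
  have l7 : Real.log (16 * x ^ 2 - 540) = 2 * Real.log 2 + Real.log (4 * x ^ 2 - 135) := by
    rw [← l4, ← Real.log_mul (by norm_num) (by linarith)]; congr 1; ring
  have l8 : Real.log (16 * x ^ 2 - 3300) = 2 * Real.log 2 + Real.log (4 * x ^ 2 - 825) := by
    rw [← l4, ← Real.log_mul (by norm_num) (by linarith)]; congr 1; ring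
  rw [l1, l2, l3, l5, l6, l7, l8]
  ring

theorem bC_ne (k : ℕ) (hk : 20 ≤ k) (i : Fin 8) : bC k i ≠ 0 := by
  have ht : (4 : ℤ) ^ 20 ≤ 4 ^ k := pow_le_pow_right₀ (by norm_num) hk
  have h1 : (1000000000 : ℤ) ≤ 4 ^ 20 := by norm_num
  have h3 : (20 : ℤ) ≤ k := by exact_mod_cast hk
  fin_cases i <;> simp only [bC, Matrix.cons_val, Fin.reduceFinMk, Fin.zero_eta, Fin.isValue,
    Fin.mk_one]
  · apply ne_of_lt; linarith
  · apply ne_of_gt; linarith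
  · apply ne_of_gt; linarith
  · apply ne_of_lt; linarith
  · norm_num
  · norm_num
  · norm_num
  · apply ne_of_lt; linarith

theorem prod_aC (k : ℕ) (hk : 20 ≤ k) :
    (4 : ℝ) ^ k ≤ ∏ i, |((aC k i : ℤ) : ℝ)| ∧
      ∏ i, |((aC k i : ℤ) : ℝ)| ≤ 2 * (4 * (4 : ℝ) ^ k) ^ 10 := by
  have ht := four_ge k hk
  obtain ⟨t, htd⟩ : ∃ t : ℝ, t = 4 ^ k := ⟨_, rfl⟩
  rw [← htd] at ht ⊢
  have ht0 : 0 < t := lt_of_lt_of_le (by norm_num) ht
  have ht60 : (6000 : ℝ) ≤ t := le_trans (by norm_num) ht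
  have ht2 : 36000000 ≤ t ^ 2 := by nlinarith
  unfold aC
  rw [pabs8]
  push_cast
  rw [pw16 k, ← htd]
  rw [abs_of_pos (show 0 < t + 15 by linarith), abs_of_pos (show 0 < t - 15 by linarith),
    abs_of_pos (show 0 < 2 * t + 15 by linarith), abs_of_pos (show 0 < 2 * t - 15 by linarith),
    abs_of_pos (show 0 < 8 * t ^ 2 - 1125 by linarith),
    abs_of_pos (show 0 < 4 * t ^ 2 - 135 by linarith),
    abs_of_pos (show 0 < 4 * t ^ 2 - 825 by linarith), abs_of_pos (show (0 : ℝ) < 2 by norm_num)]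
  have q1 : 1 ≤ t - 15 := by linarith
  have q2 : 1 ≤ 2 * t + 15 := by linarith
  have q3 : 1 ≤ 2 * t - 15 := by linarith
  have q4 : 1 ≤ 8 * t ^ 2 - 1125 := by linarith
  have q5 : 1 ≤ 4 * t ^ 2 - 135 := by linarith
  have q6 : 1 ≤ 4 * t ^ 2 - 825 := by linarith
  constructor
  · calc t ≤ (t + 15) * 1 * 1 * 1 * 1 * 1 * 1 * 1 := by linarith
      _ ≤ (t + 15) * (t - 15) * (2 * t + 15) * (2 * t - 15) * (8 * t ^ 2 - 1125) *
          (4 * t ^ 2 - 135) * (4 * t ^ 2 - 825) * 2 := by gcongr; norm_num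
  · have e1 : (t + 15) * (t - 15) ≤ t ^ 2 := by nlinarith
    have e2 : (2 * t + 15) * (2 * t - 15) ≤ 4 * t ^ 2 := by nlinarith
    calc (t + 15) * (t - 15) * (2 * t + 15) * (2 * t - 15) * (8 * t ^ 2 - 1125) *
          (4 * t ^ 2 - 135) * (4 * t ^ 2 - 825) * 2
        = ((t + 15) * (t - 15)) * ((2 * t + 15) * (2 * t - 15)) * (8 * t ^ 2 - 1125) *
          (4 * t ^ 2 - 135) * (4 * t ^ 2 - 825) * 2 := by ring
      _ ≤ t ^ 2 * (4 * t ^ 2) * (8 * t ^ 2) * (4 * t ^ 2) * (4 * t ^ 2) * 2 := by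
        have f1 : 0 ≤ (t + 15) * (t - 15) := by positivity
        have f2 : 0 ≤ (2 * t + 15) * (2 * t - 15) := by positivity
        gcongr <;> linarith
      _ = 1024 * t ^ 10 := by ring
      _ ≤ 2097152 * t ^ 10 := by
        have : 0 < t ^ 10 := by positivity
        linarith
      _ = 2 * (4 * t) ^ 10 := by ring

theorem prod_bC (k : ℕ) (hk : 20 ≤ k) :
    1 ≤ ∏ i, |((bC k i : ℤ) : ℝ)| ∧
      ∏ i, |((bC k i : ℤ) : ℝ)| ≤ 2 * 10 ^ 59 * ((2 * k + 2 : ℕ) : ℝ) * (4 * (4 : ℝ) ^ k) ^ 4 := by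
  have ht := four_ge k hk
  obtain ⟨t, htd⟩ : ∃ t : ℝ, t = 4 ^ k := ⟨_, rfl⟩
  rw [← htd] at ht ⊢
  have ht0 : 0 < t := lt_of_lt_of_le (by norm_num) ht
  have ht60 : (1000000000 : ℝ) ≤ t := le_trans (by norm_num) ht
  have hn0 : (20 : ℝ) ≤ k := by exact_mod_cast hk
  constructor
  · rw [← Finset.prod_const_one (s := (Finset.univ : Finset (Fin 8)))]
    refine Finset.prod_le_prod (fun _ _ => zero_le_one) fun i _ => ?_
    have h := Int.one_le_abs (bC_ne k hk i)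
    exact_mod_cast h
  · unfold bC
    rw [pabs8]
    push_cast
    rw [← htd]
    rw [abs_of_neg (show -20593188 * t - 308224840 < 0 by linarith),
      abs_of_pos (show 0 < 20593188 * t - 308224840 by linarith),
      abs_of_pos (show 0 < 41186376 * t + 409003595 by linarith),
      abs_of_neg (show -41186376 * t + 409003595 < 0 by linarith),
      abs_of_pos (show (0 : ℝ) < 70467584 by norm_num),
      abs_of_neg (show (-144375000 : ℝ) < 0 by norm_num),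
      abs_of_pos (show (0 : ℝ) < 31788045 by norm_num),
      abs_of_neg (show -234637536 * (k : ℝ) - 804236032 < 0 by linarith)]
    have e1 : (-(-20593188 * t - 308224840)) * (20593188 * t - 308224840) ≤ (20593188 * t) ^ 2 := by
      nlinarith
    have e2 : (41186376 * t + 409003595) * (-(-41186376 * t + 409003595)) ≤ (41186376 * t) ^ 2 := by
      nlinarith
    have e3 : 0 ≤ (41186376 * t + 409003595) * (-(-41186376 * t + 409003595)) := by
      apply mul_nonneg <;> linarith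
    have e4 : -(-234637536 * (k : ℝ) - 804236032) ≤ 150000000 * (2 * k + 2) := by linarith
    have e5 : 0 ≤ -(-234637536 * (k : ℝ) - 804236032) := by linarith
    calc _ = ((-(-20593188 * t - 308224840)) * (20593188 * t - 308224840)) *
          ((41186376 * t + 409003595) * (-(-41186376 * t + 409003595))) *
          (70467584 * 144375000 * 31788045 * (-(-234637536 * (k : ℝ) - 804236032))) := by ring
      _ ≤ (20593188 * t) ^ 2 * (41186376 * t) ^ 2 *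
          (70467584 * 144375000 * 31788045 * (150000000 * (2 * k + 2))) := by gcongr
      _ = (5148297 ^ 2 * 10296594 ^ 2 * 70467584 * 144375000 * 31788045 * 150000000) *
          ((2 * k + 2) * (4 * t) ^ 4) := by
        ring
      _ ≤ (2 * 10 ^ 59) * ((2 * k + 2) * (4 * t) ^ 4) := by
        have hc : (5148297 ^ 2 * 10296594 ^ 2 * 70467584 * 144375000 * 31788045 * 150000000 : ℝ) ≤
          2 * 10 ^ 59 := by norm_num
        exact mul_le_mul_of_nonneg_right hc (by positivity)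
      _ = _ := by ring

end Pool.Agent.H15.LW8C
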